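import Mathlib.AlgebraicGeometry.AlgClosed.Basic
import Mathlib.AlgebraicGeometry.Morphisms.Proper
import Mathlib.AlgebraicGeometry.OrderOfVanishing

/-!
# Zero-cycles on varieties over an algebraically closed field: definitions
-/

open CategoryTheory AlgebraicGeometry

universe u

namespace Pool.Agent.H802Z

variable {k : Type u} [Field k]

/-- The `k`-points of the scheme `X` over the field `k`. If `k` is algebraically closed and `X` is of
finite type, these are the closed points of `X`. -/
abbrev Pt (X : Over (Spec (.of k))) : Type u := Over.mk (𝟙 (Spec (.of k))) ⟶ X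

/-- The point of the topological space of `X` given by a `k`-point. -/
noncomputable def pt {X : Over (Spec (.of k))} (p : Pt X) : X.left := p.left (IsLocalRing.closedPoint k)

/-- The group of zero-cycles on `X`. -/
abbrev Cyc (X : Over (Spec (.of k))) : Type u := Pt X →₀ ℤ

/-- The push-forward of zero-cycles. -/
noncomputable def push {X Y : Over (Spec (.of k))} (f : X ⟶ Y) : Cyc X →+ Cyc Y :=
  Finsupp.mapDomain.addMonoidHom fun p => p ≫ f

/-- The basic rational equivalences on `X`: the push-forwards `π_* div(h)`, where `π : T ⟶ X` is a
morphism from a complete nonsingular curve `T` (an integral proper scheme whose local rings at all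
points other than the generic point are discrete valuation rings) and `h` is a nonzero rational
function on `T`. -/
def ratGenerators (X : Over (Spec (.of k))) : Set (Cyc X) :=
  {ξ | ∃ (T : Over (Spec (.of k))) (_ : IsIntegral T.left) (_ : IsLocallyNoetherian T.left)
      (_ : IsProper T.hom) (π : T ⟶ X) (h : T.left.functionField) (z : Cyc T),
      (∀ x : T.left, x ≠ genericPoint T.left → IsDiscreteValuationRing (T.left.presheaf.stalk x)) ∧
      h ≠ 0 ∧ (∀ c : Pt T, z c = Scheme.ord h (pt c)) ∧ ξ = push π z}

/-- The group of the zero-cycles on the complete variety `X` which are rationally equivalent to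
zero, so that `Cyc X ⧸ Rat X` is the Chow group of zero-cycles of `X`. -/
noncomputable def Rat (X : Over (Spec (.of k))) : AddSubgroup (Cyc X) :=
  AddSubgroup.closure (ratGenerators X)

/-- The degree of a zero-cycle. -/
noncomputable def deg {X : Over (Spec (.of k))} : Cyc X →+ ℤ :=
  Finsupp.liftAddHom fun _ => AddMonoidHom.id ℤ

/-- The effective zero-cycle `x 0 + ⋯ + x (n - 1)`. -/
noncomputable def cyc {X : Over (Spec (.of k))} {n : ℕ} (x : Fin n → Pt X) : Cyc X :=
  ∑ i, Finsupp.single (x i) 1

/-- The morphism `f` is constant. -/
def IsConstant {T X : Over (Spec (.of k))} (f : T ⟶ X) : Prop :=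
  ∃ p : Pt X, f.left = T.hom ≫ p.left

/-- The effective zero-cycle `x 0 + ⋯ + x (n - 1)` moves modulo the group `R` of zero-cycles: there
is a complete variety `T` and there are morphisms `f i : T ⟶ X`, not all constant, such that all
the zero-cycles `f 0 (t) + ⋯ + f (n - 1) (t)`, `t ∈ T`, are equal to it modulo `R`. For `R = Rat X`
this says that the fibre through it of the map `γ` from the symmetric product `S ^ n (X)` to the
Chow group has positive dimension. -/
def MovesMod {X : Over (Spec (.of k))} (R : AddSubgroup (Cyc X)) {n : ℕ} (x : Fin n → Pt X) :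
    Prop :=
  ∃ (T : Over (Spec (.of k))) (_ : IsIntegral T.left) (_ : IsProper T.hom)
    (f : Fin n → (T ⟶ X)), (∃ i, ¬ IsConstant (f i)) ∧
      ∀ t : Pt T, cyc (fun i => t ≫ f i) - cyc x ∈ R

/-- The effective zero-cycle `x 0 + ⋯ + x (n - 1)` moves in its rational equivalence class. -/
def Moves {X : Over (Spec (.of k))} {n : ℕ} (x : Fin n → Pt X) : Prop := MovesMod (Rat X) x

/-- The group generated by the group `R` of zero-cycles on `X` and by the images of the zero-cycles
of degree zero on `C`. -/
noncomputable def withCurve {C X : Over (Spec (.of k))} (π : C ⟶ X) (R : AddSubgroup (Cyc X)) :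
    AddSubgroup (Cyc X) :=
  R ⊔ (deg.ker).map (push π)

/-- All points of `X` are contained in the affine open subset `U` or in the image of `π : C ⟶ X`:
for instance `C` is a hyperplane section of the projective variety `X` and `U` is the
complement. -/
structure AffineComplement {C X : Over (Spec (.of k))} (π : C ⟶ X) (U : X.left.Opens) : Prop where
  affine : IsAffineOpen U
  cover : ∀ p : Pt X, pt p ∈ U ∨ ∃ c : Pt C, c ≫ π = p

/-- Every zero-cycle `a` on `C` is rationally equivalent to `y + (deg a - g) p` for an effective
zero-cycle `y` of degree `g`. By the theorem of Riemann and Roch this holds for all complete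
nonsingular curves `C` of genus `g` and all points `p`. -/
def JacobiInversion (C : Over (Spec (.of k))) (g : ℕ) (p : Pt C) : Prop :=
  ∀ a : Cyc C, ∃ y : Fin g → Pt C, a - (cyc y + (deg a - g) • Finsupp.single p 1) ∈ Rat C

/-- The group of zero-cycles of degree zero modulo the group `R` is finite-dimensional in the sense
of Mumford: for some `m` all differences of effective zero-cycles of the same degree are equal,
modulo `R`, to differences of effective zero-cycles of degree `m`. -/
def FiniteDimensional {X : Over (Spec (.of k))} (R : AddSubgroup (Cyc X)) : Prop :=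
  ∃ m : ℕ, ∀ (N : ℕ) (x x' : Fin N → Pt X), ∃ z z' : Fin m → Pt X,
    (cyc x - cyc x') - (cyc z - cyc z') ∈ R

/-- The push-forward of zero-cycles from `C` to `X` is surjective modulo rational equivalence. -/
def CarriesZeroCycles {C X : Over (Spec (.of k))} (π : C ⟶ X) : Prop :=
  ∀ z : Cyc X, ∃ a : Cyc C, deg a = deg z ∧ z - push π a ∈ Rat X

end Pool.Agent.H802Z
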