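import Pool.Agent.H802Z.Defs

/-!
# Zero-cycles which move
-/

open CategoryTheory AlgebraicGeometry

universe u

namespace Pool.Agent.H802Z

variable {k : Type u} [Field k]

section basic

variable {X Y Z : Over (Spec (.of k))}

theorem push_single (f : X ⟶ Y) (p : Pt X) (n : ℤ) :
    push f (Finsupp.single p n) = Finsupp.single (p ≫ f) n :=
  Finsupp.mapDomain_single

theorem push_cyc (f : X ⟶ Y) {n : ℕ} (x : Fin n → Pt X) :
    push f (cyc x) = cyc fun i => x i ≫ f := by
  rw [cyc, cyc, map_sum]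
  exact Finset.sum_congr rfl fun i _ => push_single f _ _

theorem push_push (f : X ⟶ Y) (g : Y ⟶ Z) (z : Cyc X) : push g (push f z) = push (f ≫ g) z := by
  change Finsupp.mapDomain (fun p => p ≫ g) (Finsupp.mapDomain (fun p => p ≫ f) z) =
    Finsupp.mapDomain (fun p => p ≫ f ≫ g) z
  rw [← Finsupp.mapDomain_comp]
  congr 1

/-- Push-forward respects rational equivalence. -/
theorem push_rat (f : X ⟶ Y) {z : Cyc X} (hz : z ∈ Rat X) : push f z ∈ Rat Y := by
  have h : Rat X ≤ (Rat Y).comap (push f) := by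
    rw [Rat, AddSubgroup.closure_le]
    rintro ξ ⟨T, h1, h2, h3, π, h, z, h4, h5, h6, rfl⟩
    refine AddSubgroup.subset_closure ⟨T, h1, h2, h3, π ≫ f, h, z, h4, h5, h6, ?_⟩
    exact push_push π f z
  exact h hz

theorem cyc_succ {n : ℕ} (x : Fin (n + 1) → Pt X) (i : Fin (n + 1)) :
    cyc x = Finsupp.single (x i) 1 + cyc fun j => x (i.succAbove j) := by
  rw [cyc, cyc, Fin.sum_univ_succAbove _ i]

end basic

/-- A variety over an algebraically closed field has a point. -/
theorem exists_pt [IsAlgClosed k] (T : Over (Spec (.of k))) [IsIntegral T.left]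
    [IsProper T.hom] : Nonempty (Pt T) := by
  have hjac : JacobsonSpace T.left := LocallyOfFiniteType.jacobsonSpace T.hom
  have hne : Nonempty T.left := inferInstance
  have h1 := JacobsonSpace.closure_inter_closedPoints (X := T.left) isClosed_univ
  obtain ⟨x, -, hx⟩ : ((Set.univ : Set T.left) ∩ closedPoints T.left).Nonempty := by
    by_contra h3
    rw [Set.not_nonempty_iff_eq_empty] at h3
    rw [h3, closure_empty] at h1
    exact Set.empty_ne_univ h1
  exact ⟨Over.homMk (pointOfClosedPoint T.hom x hx) (by simp)⟩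

/-- A morphism from a complete variety whose image is contained in an affine open subset is
constant. -/
theorem isConstant_of_affine [IsAlgClosed k] {T X : Over (Spec (.of k))} [IsIntegral T.left]
    [IsProper T.hom] (f : T ⟶ X) {U : X.left.Opens} (hU : IsAffineOpen U)
    (h : ∀ t : Pt T, pt (t ≫ f) ∈ U) : IsConstant f := by
  have hjac : JacobsonSpace T.left := LocallyOfFiniteType.jacobsonSpace T.hom
  -- the image is contained in `U`
  have hpt : ∀ (x : T.left) (hx : IsClosed ({x} : Set T.left)),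
      ∃ t : Pt T, t.left (IsLocalRing.closedPoint k) = x := by
    intro x hx
    exact ⟨Over.homMk (pointOfClosedPoint T.hom x hx) (by simp), by simp⟩
  have hrange : ∀ x : T.left, f.left x ∈ U := by
    by_contra hcon
    push Not at hcon
    have hcl : IsClosed ((f.left ⁻¹' (U : Set X.left)ᶜ) : Set T.left) :=
      U.isOpen.isClosed_compl.preimage f.left.continuous
    have hne : ((f.left ⁻¹' (U : Set X.left)ᶜ) : Set T.left).Nonempty := hcon
    have h1 := JacobsonSpace.closure_inter_closedPoints (X := T.left) hcl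
    have h2 : (((f.left ⁻¹' (U : Set X.left)ᶜ) : Set T.left) ∩ closedPoints T.left).Nonempty := by
      by_contra h3
      rw [Set.not_nonempty_iff_eq_empty] at h3
      rw [h3, closure_empty] at h1
      rw [← h1] at hne
      exact Set.not_nonempty_empty hne
    obtain ⟨x, hx1, hx2⟩ := h2
    obtain ⟨t, ht⟩ := hpt x hx2
    have h3 := h t
    apply hx1
    change f.left x ∈ U
    rw [← ht]
    exact h3
  have hsub : Set.range f.left ⊆ Set.range U.ι := by
    rintro _ ⟨x, rfl⟩
    rw [Scheme.Opens.range_ι]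
    exact hrange x
  let g : T.left ⟶ U.toScheme := IsOpenImmersion.lift U.ι f.left hsub
  have hg : g ≫ U.ι = f.left := IsOpenImmersion.lift_fac _ _ _
  have hUa : IsAffine U.toScheme := hU
  -- global functions are constant
  have hfield := isField_of_universallyClosed k T.hom
  have hint := isIntegral_appTop_of_universallyClosed T.hom
  have hiso : IsIso T.hom.appTop := by
    have hF : ((Scheme.ΓSpecIso (.of k)).inv ≫ T.hom.appTop).hom.IsIntegral := by
      apply RingHom.isIntegral_respectsIso.2 (e := (Scheme.ΓSpecIso _).symm.commRingCatIsoToRingEquiv)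
      exact hint
    have h1 : Function.Bijective ((Scheme.ΓSpecIso (.of k)).inv ≫ T.hom.appTop).hom :=
      IsAlgClosed.ringHom_bijective_of_isIntegral _ hF
    have h2 : IsIso ((Scheme.ΓSpecIso (.of k)).inv ≫ T.hom.appTop) := by
      rwa [ConcreteCategory.isIso_iff_bijective]
    exact IsIso.of_isIso_comp_left (Scheme.ΓSpecIso (.of k)).inv _
  have hfac : ∃ s : Spec (.of k) ⟶ U.toScheme, g = T.hom ≫ s := by
    have h1 : T.left.toSpecΓ = T.hom ≫ (Spec (.of k)).toSpecΓ ≫ inv (Spec.map T.hom.appTop) := by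
      rw [← Category.assoc, Scheme.toSpecΓ_naturality, Category.assoc, IsIso.hom_inv_id,
        Category.comp_id]
    refine ⟨((Spec (.of k)).toSpecΓ ≫ inv (Spec.map T.hom.appTop)) ≫ Spec.map g.appTop ≫
      inv U.toScheme.toSpecΓ, ?_⟩
    rw [← Category.assoc, ← h1, ← Category.assoc, ← Scheme.toSpecΓ_naturality, Category.assoc,
      IsIso.hom_inv_id, Category.comp_id]
  obtain ⟨s, hs⟩ := hfac
  obtain ⟨t⟩ := exists_pt T
  refine ⟨t ≫ f, ?_⟩
  have ht : t.left ≫ T.hom = 𝟙 _ := Over.w t
  rw [Over.comp_left, ← hg, hs, Category.assoc, reassoc_of% ht]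

theorem deg_single {X : Over (Spec (.of k))} (p : Pt X) (n : ℤ) :
    deg (Finsupp.single p n) = n := by
  simp [deg]

theorem deg_cyc {X : Over (Spec (.of k))} {n : ℕ} (x : Fin n → Pt X) : deg (cyc x) = n := by
  simp [cyc, deg_single]

theorem mem_withCurve {C X : Over (Spec (.of k))} {π : C ⟶ X} {R : AddSubgroup (Cyc X)}
    {z : Cyc X} : z ∈ withCurve π R ↔ ∃ c : Cyc C, deg c = 0 ∧ z - push π c ∈ R := by
  rw [withCurve, AddSubgroup.mem_sup]
  constructor
  · rintro ⟨a, ha, _, ⟨c, hc, rfl⟩, rfl⟩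
    refine ⟨c, hc, ?_⟩
    rwa [add_sub_cancel_right]
  · rintro ⟨c, hc, h⟩
    exact ⟨_, h, _, ⟨c, hc, rfl⟩, sub_add_cancel _ _⟩

section main

variable [IsAlgClosed k] {C X : Over (Spec (.of k))} {π : C ⟶ X} {U : X.left.Opens}
  {R : AddSubgroup (Cyc X)}

/-- One of the points is moved to the image of `C`. -/
theorem exists_step (h : AffineComplement π U) {n : ℕ}
    (hmove : ∀ x : Fin (n + 1) → Pt X, (∀ i, pt (x i) ∈ U) → MovesMod (withCurve π R) x)
    (x : Fin (n + 1) → Pt X) :
    ∃ (a : Cyc C) (y : Fin n → Pt X), deg a = 1 ∧ cyc x - (push π a + cyc y) ∈ R := by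
  by_cases hx : ∀ i, pt (x i) ∈ U
  · obtain ⟨T, hT1, hT2, f, ⟨i, hi⟩, ht⟩ := hmove x hx
    have h1 : ¬ ∀ t : Pt T, pt (t ≫ f i) ∈ U := fun h2 => hi (isConstant_of_affine (f i) h.affine h2)
    push Not at h1
    obtain ⟨t, h2⟩ := h1
    obtain ⟨c, hc⟩ := (h.cover (t ≫ f i)).resolve_left h2
    obtain ⟨b, hb, h3⟩ := mem_withCurve.1 (ht t)
    refine ⟨Finsupp.single c 1 - b, fun j => t ≫ f (i.succAbove j), ?_, ?_⟩
    · rw [map_sub, deg_single, hb, sub_zero]
    · rw [cyc_succ _ i, ← hc] at h3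
      have h4 := R.neg_mem h3
      rw [map_sub, push_single]
      convert h4 using 1
      abel
  · push Not at hx
    obtain ⟨i, hi⟩ := hx
    obtain ⟨c, hc⟩ := (h.cover (x i)).resolve_left hi
    refine ⟨Finsupp.single c 1, fun j => x (i.succAbove j), deg_single _ _, ?_⟩
    rw [cyc_succ x i, push_single, hc, sub_self]
    exact R.zero_mem

/-- All but `n` points are moved to the image of `C`. -/
theorem exists_all (h : AffineComplement π U) {n : ℕ}
    (hmove : ∀ x : Fin (n + 1) → Pt X, (∀ i, pt (x i) ∈ U) → MovesMod (withCurve π R) x) (p : Pt C) :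
    ∀ (N : ℕ) (x : Fin N → Pt X), ∃ (a : Cyc C) (y : Fin n → Pt X),
      deg a = (N : ℤ) - n ∧ cyc x - (push π a + cyc y) ∈ R := by
  intro N
  induction N with
  | zero =>
    intro x
    refine ⟨(-n : ℤ) • Finsupp.single p 1, fun _ => p ≫ π, ?_, ?_⟩
    · rw [map_zsmul, deg_single]
      simp
    · have h1 : cyc (fun _ : Fin n => p ≫ π) = (n : ℤ) • Finsupp.single (p ≫ π) 1 := by
        simp [cyc]
      have h2 : cyc x - (push π ((-n : ℤ) • Finsupp.single p 1) + cyc (fun _ : Fin n => p ≫ π)) =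
          0 := by
        rw [h1, map_zsmul, push_single]
        simp [cyc]
      rw [h2]
      exact R.zero_mem
  | succ N ih =>
    intro x
    obtain ⟨a, y, h0, h1⟩ := ih fun j => x ((0 : Fin (N + 1)).succAbove j)
    obtain ⟨b, y', h0', h2⟩ := exists_step h hmove (Fin.cons (x 0) y : Fin (n + 1) → Pt X)
    refine ⟨a + b, y', ?_, ?_⟩
    · rw [map_add, h0, h0']
      push_cast
      ring
    · rw [cyc_succ _ 0] at h2
      have h3 := R.add_mem h1 h2
      have e2 : (fun j => (Fin.cons (x 0) y : Fin (n + 1) → Pt X)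
          ((0 : Fin (n + 1)).succAbove j)) = y := by
        funext j
        simp
      rw [e2, Fin.cons_zero] at h3
      rw [cyc_succ x 0, map_add]
      convert h3 using 1
      abel

/-- **The bound.** -/
theorem bound (hR : Rat X ≤ R) (h : AffineComplement π U) {g : ℕ} {p : Pt C} (hC : JacobiInversion C g p) {n : ℕ}
    (hmove : ∀ x : Fin (n + 1) → Pt X, (∀ i, pt (x i) ∈ U) → MovesMod (withCurve π R) x) (N : ℕ)
    (x : Fin N → Pt X) : ∃ (c : Fin g → Pt C) (y : Fin n → Pt X),
      cyc x - (push π (cyc c) + cyc y + ((N : ℤ) - g - n) • Finsupp.single (p ≫ π) 1) ∈ R := by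
  obtain ⟨a, y, h0, h1⟩ := exists_all h hmove p N x
  obtain ⟨c, h2⟩ := hC a
  refine ⟨c, y, ?_⟩
  have h3 := R.add_mem h1 (hR (push_rat π h2))
  rw [map_sub, map_add, map_zsmul, push_single, h0] at h3
  convert h3 using 1
  module

/-- **Finite-dimensionality.** -/
theorem finiteDimensional (hR : Rat X ≤ R) (h : AffineComplement π U) {g : ℕ} {p : Pt C}
    (hC : JacobiInversion C g p) {n : ℕ}
    (hmove : ∀ x : Fin (n + 1) → Pt X, (∀ i, pt (x i) ∈ U) → MovesMod (withCurve π R) x) :
    FiniteDimensional R := by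
  refine ⟨g + n, fun N x x' => ?_⟩
  obtain ⟨c, y, h1⟩ := bound hR h hC hmove N x
  obtain ⟨c', y', h2⟩ := bound hR h hC hmove N x'
  have e : ∀ (c : Fin g → Pt C) (y : Fin n → Pt X),
      cyc (Fin.append (fun i => c i ≫ π) y) = push π (cyc c) + cyc y := by
    intro c y
    rw [push_cyc, cyc, cyc, cyc, Fin.sum_univ_add]
    simp
  refine ⟨Fin.append (fun i => c i ≫ π) y, Fin.append (fun i => c' i ≫ π) y', ?_⟩
  rw [e, e]
  convert R.sub_mem h1 h2 using 1
  abel

/-- The converse. -/
theorem moves_of_carries [Mono π] {g : ℕ} {p : Pt C} (hC : JacobiInversion C g p)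
    (hRR : ∀ c : Fin (g + 1) → Pt C, Moves c) (hX : CarriesZeroCycles π)
    (x : Fin (g + 1) → Pt X) : Moves x := by
  obtain ⟨a, h1, h2⟩ := hX (cyc x)
  obtain ⟨y, h3⟩ := hC a
  obtain ⟨T, hT1, hT2, f, ⟨i, hi⟩, ht⟩ := hRR (Fin.cons p y)
  have e : cyc (Fin.cons p y : Fin (g + 1) → Pt C) = Finsupp.single p 1 + cyc y := by
    rw [cyc_succ _ 0]
    simp
  rw [h1, deg_cyc] at h3
  refine ⟨T, hT1, hT2, fun i => f i ≫ π, ⟨i, ?_⟩, fun t => ?_⟩
  · rintro ⟨q, hq⟩
    obtain ⟨t⟩ := exists_pt T
    have ht' : t.left ≫ T.hom = 𝟙 _ := Over.w t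
    have h7 : (f i ≫ π) = ((Over.homMk T.hom : T ⟶ Over.mk (𝟙 (Spec (.of k)))) ≫ t ≫ f i) ≫ π := by
      apply Over.OverMorphism.ext
      have h8 : t.left ≫ (f i ≫ π).left = q.left := by rw [hq, reassoc_of% ht']
      refine hq.trans ?_
      rw [← h8]
      rfl
    have h9 := (cancel_mono π).1 h7
    refine hi ⟨t ≫ f i, ?_⟩
    conv_lhs => rw [h9]
    rfl
  · have h4 := push_rat π (ht t)
    rw [map_sub, push_cyc, e] at h4
    have h5 := push_rat π h3
    rw [map_sub] at h5
    have h6 := (Rat X).sub_mem h4 ((Rat X).add_mem h2 h5)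
    convert h6 using 1
    simp only [Category.assoc, map_add, map_zsmul, push_single]
    push_cast
    module

end main

end Pool.Agent.H802Z
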